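import Mathlib

/-!
# A `cov(M)`-Luzin set which is a union of fewer than `cov(M)` meager sets

Suppose that the continuum `𝔠` is singular and that there is a set `L ⊆ 2^ω` of size `𝔠` which meets every
meager set in a countable set (this holds in the Cohen model, for instance if `ℵ_{ω₁}` Cohen reals are
added to a model of GCH; then `L` is the set of the Cohen reals and `𝔠 = ℵ_{ω₁}`). Then `cov(M) = 𝔠`, and
there is a `cov(M)`-Luzin set of reals which is a union of `cf(𝔠) < cov(M)` meager sets.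

Let `Φ : 2^ω × 2^ω → [0,1]`, `Φ(a, c) = ∑ (2 a_n + c_n) 4^(-n-1)`. The sets `Φ({a} × 2^ω)` are nowhere
dense, and for every meager `M ⊆ ℝ` the section `{c : Φ(a, c) ∈ M}` is meager for comeager many `a`
(Kuratowski-Ulam). Enumerate `L = {e_j : j < 𝔠}`, let `S ⊆ 𝔠` be cofinal with `|S| = cf(𝔠)`, and let
`X = {Φ(e_i, e_j) : i ∈ S, j < i}`.
-/

set_option autoImplicit false

namespace Pool.Agent.Results.MP_54b694_lc.SingularLuzin

open Set Topology
open scoped Cardinal

/-- `cov(M)`: the least cardinality of a family of meager sets of reals with union `ℝ`. -/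
noncomputable def covM : Cardinal.{0} :=
  sInf {κ | ∃ F : Set (Set ℝ), #F = κ ∧ (∀ A ∈ F, IsMeagre A) ∧ ⋃₀ F = univ}

/-- `X` is a `κ`-Luzin set: `|X| ≥ κ`, and `|X ∩ M| < κ` for every meager set `M`. -/
def IsLuzinSet (κ : Cardinal.{0}) (X : Set ℝ) : Prop :=
  κ ≤ #X ∧ ∀ M : Set ℝ, IsMeagre M → #(X ∩ M : Set ℝ) < κ

/-- `X` is a union of fewer than `κ` meager sets. -/
def UnionOfFewer (κ : Cardinal.{0}) (X : Set ℝ) : Prop :=
  ∃ (ι : Type) (F : ι → Set ℝ), #ι < κ ∧ (∀ i, IsMeagre (F i)) ∧ X = ⋃ i, F i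

/-! ### The map `Φ` -/

/-- Cantor space -/
abbrev K : Type := ℕ → Bool

/-- the digit with the given bits -/
def dg (x y : Bool) : Fin 4 :=
  match x, y with
  | false, false => 0
  | false, true => 1
  | true, false => 2
  | true, true => 3

/-- high bit -/
def hi (d : Fin 4) : Bool := decide (2 ≤ d)

/-- low bit -/
def lo (d : Fin 4) : Bool := decide (d = 1 ∨ d = 3)

theorem dg_hi_lo (d : Fin 4) : dg (hi d) (lo d) = d := by
  revert d
  decide

/-- the map -/
noncomputable def Phi (a c : K) : ℝ := Real.ofDigits fun n => dg (a n) (c n)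

theorem continuous_Phi : Continuous fun p : K × K => Phi p.1 p.2 := by
  refine Real.continuous_ofDigits.comp (continuous_pi fun n => ?_)
  have h : Continuous fun q : Bool × Bool => dg q.1 q.2 := continuous_of_discreteTopology
  have h' : Continuous fun p : K × K => (p.1 n, p.2 n) :=
    ((continuous_apply n).comp continuous_fst).prodMk ((continuous_apply n).comp continuous_snd)
  exact h.comp h'

theorem dg_val (x y : Bool) : ((dg x y : ℕ) : ℝ) = 2 * (cond x 1 0) + cond y 1 0 := by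
  rcases x with _ | _ <;> rcases y with _ | _ <;> norm_num [dg]

theorem Phi_eq (a c : K) :
    Phi a c = (2 * Cardinal.cantorFunction (1 / 4) a + Cardinal.cantorFunction (1 / 4) c) / 4 := by
  have h1 := Cardinal.summable_cantor_function a (c := 1 / 4) (by norm_num) (by norm_num)
  have h2 := Cardinal.summable_cantor_function c (c := 1 / 4) (by norm_num) (by norm_num)
  unfold Phi Real.ofDigits Cardinal.cantorFunction
  rw [← tsum_mul_left, ← (h1.mul_left 2).tsum_add h2, ← tsum_div_const]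
  refine tsum_congr fun n => ?_
  unfold Real.ofDigitsTerm Cardinal.cantorFunctionAux
  have h3 : ((4 : ℕ) : ℝ) ^ (n + 1) = 4 * 4 ^ n := by push_cast; ring
  have h4 : ((1 : ℝ) / 4) ^ n = (4 ^ n)⁻¹ := by rw [one_div, inv_pow]
  rw [h3, dg_val, h4, mul_inv]
  generalize a n = x
  generalize c n = y
  rcases x with _ | _ <;> rcases y with _ | _ <;> simp only [cond_true, cond_false] <;> ring

theorem Phi_inj (a : K) : Function.Injective (Phi a) := by
  intro c c' h
  rw [Phi_eq, Phi_eq] at h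
  refine Cardinal.cantorFunction_injective (c := 1 / 4) (by norm_num) (by norm_num) ?_
  linarith

theorem exists_cyl {s : Set K} (hs : IsOpen s) {x : K} (hx : x ∈ s) :
    ∃ n, ∀ y : K, (∀ i < n, y i = x i) → y ∈ s := by
  have hb := PiNat.isTopologicalBasis_cylinders (E := fun _ : ℕ => Bool)
  obtain ⟨t, ⟨z, n, rfl⟩, hxt, hts⟩ := hb.exists_subset_of_mem_open hx hs
  refine ⟨n, fun y hy => hts ?_⟩
  rw [PiNat.mem_cylinder_iff] at hxt ⊢
  exact fun i hi => (hy i hi).trans (hxt i hi)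

theorem image_open {U : Set (K × K)} (hU : IsOpen U) (hne : U.Nonempty) :
    ∃ q d : ℝ, 0 < d ∧ Icc q (q + d) ⊆ (fun p : K × K => Phi p.1 p.2) '' U := by
  obtain ⟨⟨a0, c0⟩, h0⟩ := hne
  obtain ⟨u, v, hu, hv, hau, hcv, huv⟩ := isOpen_prod_iff.1 hU a0 c0 h0
  obtain ⟨n1, hn1⟩ := exists_cyl hu hau
  obtain ⟨n2, hn2⟩ := exists_cyl hv hcv
  let n := max n1 n2
  refine ⟨∑ i ∈ Finset.range n, Real.ofDigitsTerm (fun n => dg (a0 n) (c0 n)) i,
    (((4 : ℕ) : ℝ) ^ n)⁻¹, by positivity, fun y hy => ?_⟩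
  let q := ∑ i ∈ Finset.range n, Real.ofDigitsTerm (fun n => dg (a0 n) (c0 n)) i
  have h4 : (0 : ℝ) < ((4 : ℕ) : ℝ) ^ n := by positivity
  have ht : (y - q) * ((4 : ℕ) : ℝ) ^ n ∈ Icc (0 : ℝ) 1 := by
    constructor
    · exact mul_nonneg (sub_nonneg.2 hy.1) h4.le
    · have h5 : y - q ≤ (((4 : ℕ) : ℝ) ^ n)⁻¹ := by
        have := hy.2
        linarith
      calc (y - q) * ((4 : ℕ) : ℝ) ^ n ≤ (((4 : ℕ) : ℝ) ^ n)⁻¹ * ((4 : ℕ) : ℝ) ^ n :=
            mul_le_mul_of_nonneg_right h5 h4.le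
        _ = 1 := inv_mul_cancel₀ h4.ne'
  obtain ⟨e, -, he⟩ := Real.ofDigits_SurjOn (b := 4) (by norm_num) ht
  let a : K := fun i => if i < n then a0 i else hi (e (i - n))
  let c : K := fun i => if i < n then c0 i else lo (e (i - n))
  refine ⟨(a, c), huv ⟨hn1 a fun i hi => ?_, hn2 c fun i hi => ?_⟩, ?_⟩
  · have : i < n := lt_of_lt_of_le hi (le_max_left _ _)
    simp [a, this]
  · have : i < n := lt_of_lt_of_le hi (le_max_right _ _)
    simp [c, this]
  · show Real.ofDigits (fun i => dg (a i) (c i)) = y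
    rw [Real.ofDigits_eq_sum_add_ofDigits _ n]
    have h6 : ∑ i ∈ Finset.range n, Real.ofDigitsTerm (fun i => dg (a i) (c i)) i = q := by
      refine Finset.sum_congr rfl fun i hi => ?_
      have := Finset.mem_range.1 hi
      simp [Real.ofDigitsTerm, a, c, this]
    have h7 : (fun i => dg (a (i + n)) (c (i + n))) = e := by
      funext i
      have : ¬ i + n < n := by omega
      simp only [a, c, this, if_false, Nat.add_sub_cancel]
      exact dg_hi_lo _
    rw [h6, h7, he]
    field_simp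
    ring

/-! ### Category -/

theorem ku_closed {N : Set ℝ} (hN : IsClosed N) (hI : interior N = ∅) :
    ∀ᶠ a in residual K, interior {c | Phi a c ∈ N} = ∅ := by
  have h1 : ∀ V ∈ TopologicalSpace.countableBasis K,
      ∀ᶠ a in residual K, V.Nonempty → ∃ c ∈ V, Phi a c ∉ N := by
    intro V hV
    have hVo : IsOpen V := (TopologicalSpace.isBasis_countableBasis K).isOpen hV
    by_cases hne : V.Nonempty
    swap
    · exact Filter.Eventually.of_forall fun a h => absurd h hne
    have h2 : IsOpen {a | ∃ c ∈ V, Phi a c ∉ N} := by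
      have h3 : {a | ∃ c ∈ V, Phi a c ∉ N} =
          Prod.fst '' ((univ ×ˢ V) ∩ (fun p : K × K => Phi p.1 p.2) ⁻¹' Nᶜ) := by
        ext a
        constructor
        · rintro ⟨c, hc, hc'⟩
          exact ⟨(a, c), ⟨⟨trivial, hc⟩, hc'⟩, rfl⟩
        · rintro ⟨⟨a', c⟩, ⟨⟨-, hc⟩, hc'⟩, rfl⟩
          exact ⟨c, hc, hc'⟩
      rw [h3]
      exact isOpenMap_fst _ ((isOpen_univ.prod hVo).inter (hN.isOpen_compl.preimage continuous_Phi))
    have h3 : Dense {a | ∃ c ∈ V, Phi a c ∉ N} := by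
      rw [dense_iff_inter_open]
      intro W hW hWne
      obtain ⟨q, d, hd, hq⟩ := image_open (hW.prod hVo) (hWne.prod hne)
      have h4 : ¬ Icc q (q + d) ⊆ N := by
        intro h
        have h5 : Ioo q (q + d) ⊆ interior N :=
          interior_maximal (Ioo_subset_Icc_self.trans h) isOpen_Ioo
        rw [hI] at h5
        exact h5 (⟨by linarith, by linarith⟩ : q + d / 2 ∈ Ioo q (q + d))
      obtain ⟨y, hy, hyN⟩ := not_subset.1 h4
      obtain ⟨⟨a, c⟩, ⟨ha, hc⟩, rfl⟩ := hq hy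
      exact ⟨a, ha, c, hc, hyN⟩
    filter_upwards [residual_of_dense_open h2 h3] with a ha _
    exact ha
  have h2 := (eventually_countable_ball (TopologicalSpace.countable_countableBasis K)).2 h1
  filter_upwards [h2] with a ha
  by_contra hne
  obtain ⟨c, hc⟩ := nonempty_iff_ne_empty.2 hne
  obtain ⟨V, hV, hcV, hVs⟩ := (TopologicalSpace.isBasis_countableBasis K).exists_subset_of_mem_open hc
    isOpen_interior
  obtain ⟨c', hc', hN'⟩ := ha V hV ⟨c, hcV⟩
  exact hN' (interior_subset (s := {c | Phi a c ∈ N}) (hVs hc'))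

theorem ku {M : Set ℝ} (hM : IsMeagre M) : ∀ᶠ a in residual K, IsMeagre {c | Phi a c ∈ M} := by
  obtain ⟨S, hS, hSc, hMS⟩ := isMeagre_iff_countable_union_isNowhereDense.1 hM
  have h1 : ∀ t ∈ S, ∀ᶠ a in residual K, IsMeagre {c | Phi a c ∈ closure t} := by
    intro t ht
    have h2 : interior (closure t) = ∅ := hS t ht
    filter_upwards [ku_closed isClosed_closure h2] with a ha
    have h3 : IsClosed {c | Phi a c ∈ closure t} :=
      isClosed_closure.preimage (continuous_Phi.comp (continuous_const.prodMk continuous_id))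
    exact (h3.isNowhereDense_iff.2 ha).isMeagre
  have h2 := (eventually_countable_ball hSc).2 h1
  filter_upwards [h2] with a ha
  have h3 : {c | Phi a c ∈ M} ⊆ ⋃ t ∈ S, {c | Phi a c ∈ closure t} := by
    intro c hc
    obtain ⟨t, ht, hct⟩ := hMS hc
    exact mem_biUnion ht (subset_closure hct)
  refine IsMeagre.mono h3 ?_
  have := hSc.to_subtype
  rw [biUnion_eq_iUnion]
  exact isMeagre_iUnion fun t => ha t.1 t.2

theorem fiber_meagre (a : K) : IsMeagre (range (Phi a)) := by
  have hc : Continuous (Phi a) := continuous_Phi.comp (continuous_const.prodMk continuous_id)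
  have he : IsClosedEmbedding (Phi a) := hc.isClosedEmbedding (Phi_inj a)
  refine IsNowhereDense.isMeagre (he.isClosed_range.isNowhereDense_iff.2 ?_)
  by_contra hne
  obtain ⟨x, hx⟩ := nonempty_iff_ne_empty.2 hne
  obtain ⟨ε, hε, hball⟩ := Metric.isOpen_iff.1 isOpen_interior x hx
  have h1 : IsTotallyDisconnected (range (Phi a)) :=
    he.isEmbedding.isTotallyDisconnected_range.2 inferInstance
  have h2 := h1 (Metric.ball x ε) (hball.trans interior_subset) (convex_ball x ε).isPreconnected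
  have h3 : x = x + ε / 2 := h2 (Metric.mem_ball_self hε) (by
    rw [Metric.mem_ball, Real.dist_eq, add_sub_cancel_left, abs_of_pos (by linarith)]
    linarith)
  linarith

/-! ### Cardinals -/

/-- a well-ordered index set of size `𝔠` and type `𝔠` -/
abbrev T : Type := (Cardinal.continuum.{0}).ord.ToType

theorem mk_T : #T = 𝔠 := Cardinal.mk_ord_toType _

theorem cof_gt : ℵ₀ < (Cardinal.continuum.{0}).ord.cof := by
  have := Cardinal.lt_cof_ord_power (a := ℵ₀) (b := 2) le_rfl (by norm_num)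
  rwa [Cardinal.two_power_aleph0] at this

theorem bounded {B : Set T} (hB : B.Countable) : ∃ j : T, ∀ i ∈ B, i < j := by
  by_contra h
  push Not at h
  have h1 : IsCofinal B := fun x => h x
  have h2 := Order.cof_le h1
  rw [Ordinal.cof_toType] at h2
  exact absurd (h2.trans (Cardinal.le_aleph0_iff_set_countable.2 hB)) (not_le.2 cof_gt)

theorem mk_iUnion_lt {ι α : Type} (f : ι → Set α) (hι : #ι < 𝔠) (hf : ∀ i, (f i).Countable) :
    #(⋃ i, f i) < 𝔠 := by
  refine (Cardinal.mk_iUnion_le f).trans_lt ?_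
  refine Cardinal.mul_lt_of_lt Cardinal.aleph0_le_continuum hι ?_
  exact (ciSup_le' fun i => Cardinal.le_aleph0_iff_set_countable.2 (hf i)).trans_lt
    Cardinal.aleph0_lt_continuum

section Main

variable {L : Set K} (hLuz : ∀ M : Set K, IsMeagre M → (L ∩ M).Countable) (e : T ≃ L)

include hLuz in
theorem ctbl {M : Set K} (hM : IsMeagre M) : {t : T | (e t : K) ∈ M}.Countable := by
  have h1 : {t : T | (e t : K) ∈ M} = (fun t : T => (e t : K)) ⁻¹' (L ∩ M) := by
    ext t
    simp
  rw [h1]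
  exact (hLuz M hM).preimage (Subtype.val_injective.comp e.injective)

include hLuz in
theorem bad_ctbl {M : Set ℝ} (hM : IsMeagre M) :
    {t : T | ¬ IsMeagre {c | Phi (e t) c ∈ M}}.Countable := by
  refine ctbl hLuz e (M := {a | ¬ IsMeagre {c | Phi a c ∈ M}}) ?_
  have h1 := ku hM
  show {a | ¬ IsMeagre {c | Phi a c ∈ M}}ᶜ ∈ residual K
  filter_upwards [h1] with a ha
  simpa using ha

include hLuz e in
theorem covM_eq : covM = 𝔠 := by
  refine le_antisymm (csInf_le' ⟨range fun x : ℝ => ({x} : Set ℝ), ?_, ?_, ?_⟩) ?_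
  · rw [Cardinal.mk_range_eq _ singleton_injective, Cardinal.mk_real]
  · rintro _ ⟨x, rfl⟩
    exact (isClosed_singleton.isNowhereDense_iff.2 (interior_singleton x)).isMeagre
  · rw [sUnion_range, iUnion_of_singleton]
  · refine le_csInf ⟨_, range fun x : ℝ => ({x} : Set ℝ), rfl, ?_, ?_⟩ ?_
    · rintro _ ⟨x, rfl⟩
      exact (isClosed_singleton.isNowhereDense_iff.2 (interior_singleton x)).isMeagre
    · rw [sUnion_range, iUnion_of_singleton]
    rintro κ ⟨F, rfl, hF, hU⟩
    by_contra h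
    rw [not_le] at h
    have h1 : #(⋃ A : F, {t : T | ¬ IsMeagre {c | Phi (e t) c ∈ A.1}}) < 𝔠 :=
      mk_iUnion_lt _ h fun A => bad_ctbl hLuz e (hF A.1 A.2)
    have h2 : ∃ t0, t0 ∉ ⋃ A : F, {t : T | ¬ IsMeagre {c | Phi (e t) c ∈ A.1}} := by
      by_contra h3
      push Not at h3
      rw [eq_univ_of_forall h3, Cardinal.mk_univ, mk_T] at h1
      exact lt_irrefl _ h1
    obtain ⟨t0, ht0⟩ := h2
    have h3 : ∀ A : F, IsMeagre {c | Phi (e t0) c ∈ A.1} := by
      intro A
      by_contra hA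
      exact ht0 (mem_iUnion.2 ⟨A, hA⟩)
    have h4 : #(⋃ A : F, {t : T | Phi (e t0) (e t) ∈ A.1}) < 𝔠 :=
      mk_iUnion_lt _ h fun A => ctbl hLuz e (h3 A)
    have h5 : (⋃ A : F, {t : T | Phi (e t0) (e t) ∈ A.1}) = univ := by
      refine eq_univ_of_forall fun t => ?_
      have h6 : Phi (e t0) (e t) ∈ ⋃₀ F := hU ▸ mem_univ _
      obtain ⟨A, hA, hx⟩ := h6
      exact mem_iUnion.2 ⟨⟨A, hA⟩, hx⟩
    rw [h5, Cardinal.mk_univ, mk_T] at h4
    exact lt_irrefl _ h4

include hLuz e in
theorem exists_X (hsing : (Cardinal.continuum.{0}).ord.cof < 𝔠) :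
    ∃ X : Set ℝ, IsLuzinSet 𝔠 X ∧ UnionOfFewer 𝔠 X := by
  obtain ⟨S, hS, hScard⟩ := Order.exists_cof_eq T
  have hS2 : #S < 𝔠 := by
    rw [hScard, Ordinal.cof_toType]
    exact hsing
  let X : Set ℝ := ⋃ i : S, (fun j : T => Phi (e i.1) (e j)) '' Iio i.1
  refine ⟨X, ⟨?_, fun M hM => ?_⟩, S, _, hS2, fun i => ?_, rfl⟩
  · by_contra h
    rw [not_le] at h
    have h1 : ∀ t : T, ∃ i : S, t < i.1 := by
      intro t
      obtain ⟨j, hj⟩ := bounded (countable_singleton t)
      obtain ⟨i, hi, hji⟩ := hS j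
      exact ⟨⟨i, hi⟩, (hj t rfl).trans_le hji⟩
    choose i hi using h1
    let f : T → S × X := fun t =>
      (i t, ⟨Phi (e (i t).1) (e t), mem_iUnion.2 ⟨i t, ⟨t, hi t, rfl⟩⟩⟩)
    have hf : Function.Injective f := by
      intro t t' htt
      have h2 : i t = i t' := congrArg Prod.fst htt
      have h3 : Phi (e (i t).1) (e t) = Phi (e (i t').1) (e t') :=
        congrArg (fun q : S × X => (q.2 : ℝ)) htt
      rw [← h2] at h3
      exact e.injective (Subtype.ext (Phi_inj _ h3))
    have h4 := Cardinal.mk_le_of_injective hf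
    rw [mk_T, Cardinal.mk_prod, Cardinal.lift_id, Cardinal.lift_id] at h4
    exact absurd h4 (not_le.2 (Cardinal.mul_lt_of_lt Cardinal.aleph0_le_continuum hS2 h))
  · have hB := bad_ctbl hLuz e hM
    obtain ⟨j0, hj0⟩ := bounded hB
    let A1 : Set ℝ := ⋃ i : S, (fun j : T => Phi (e i.1) (e j)) ''
      {j : T | IsMeagre {c | Phi (e i.1) c ∈ M} ∧ Phi (e i.1) (e j) ∈ M}
    let A2 : Set ℝ := (fun p : T × T => Phi (e p.1) (e p.2)) ''
      ({t : T | ¬ IsMeagre {c | Phi (e t) c ∈ M}} ×ˢ Iio j0)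
    have h1 : #A1 < 𝔠 := by
      refine mk_iUnion_lt _ hS2 fun i => ?_
      refine Countable.image ?_ _
      by_cases hi : IsMeagre {c | Phi (e i.1) c ∈ M}
      · exact (ctbl hLuz e hi).mono fun j hj => hj.2
      · exact (countable_empty (α := T)).mono fun j hj => hi hj.1
    have h2 : #A2 < 𝔠 := by
      refine Cardinal.mk_image_le.trans_lt ?_
      rw [Cardinal.mk_congr (Equiv.Set.prod _ _), Cardinal.mk_prod, Cardinal.lift_id,
        Cardinal.lift_id]
      refine Cardinal.mul_lt_of_lt Cardinal.aleph0_le_continuum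
        ((Cardinal.le_aleph0_iff_set_countable.2 hB).trans_lt Cardinal.aleph0_lt_continuum) ?_
      have := Cardinal.mk_Iio_toType_ord_lt j0
      exact this
    have h3 : X ∩ M ⊆ A1 ∪ A2 := by
      rintro x ⟨hx, hxM⟩
      obtain ⟨i, j, hj, rfl⟩ := mem_iUnion.1 hx
      by_cases hi : IsMeagre {c | Phi (e i.1) c ∈ M}
      · exact Or.inl (mem_iUnion.2 ⟨i, j, ⟨hi, hxM⟩, rfl⟩)
      · exact Or.inr ⟨(i.1, j), ⟨hi, (show j < i.1 from hj).trans (hj0 i.1 hi)⟩, rfl⟩
    calc #(X ∩ M : Set ℝ) ≤ #(A1 ∪ A2 : Set ℝ) := Cardinal.mk_le_mk_of_subset h3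
      _ ≤ #A1 + #A2 := Cardinal.mk_union_le _ _
      _ < 𝔠 := Cardinal.add_lt_of_lt Cardinal.aleph0_le_continuum h1 h2
  · refine (fiber_meagre (e i.1)).mono ?_
    rintro _ ⟨j, -, rfl⟩
    exact mem_range_self _

end Main

/-- **A `cov(M)`-Luzin set which is a union of fewer than `cov(M)` meager sets.** Suppose that the
continuum is singular and that there is a set `L ⊆ 2^ω` of size `𝔠` whose intersection with every meager
set is countable. (Both hold if `ℵ_{ω₁}` Cohen reals are added to a model of GCH.) Then `cov(M) = 𝔠` is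
singular, and there is a `cov(M)`-Luzin set of reals which is a union of fewer than `cov(M)` meager
sets. -/
theorem result (hsing : (Cardinal.continuum.{0}).ord.cof < 𝔠) (L : Set (ℕ → Bool)) (hL : #L = 𝔠)
    (hLuz : ∀ M : Set (ℕ → Bool), IsMeagre M → (L ∩ M).Countable) :
    covM = 𝔠 ∧ covM.ord.cof < covM ∧ ∃ X : Set ℝ, IsLuzinSet covM X ∧ UnionOfFewer covM X := by
  obtain ⟨e⟩ := Cardinal.eq.1 (mk_T.trans hL.symm)
  have h := covM_eq hLuz e
  refine ⟨h, ?_, ?_⟩
  · rw [h]
    exact hsing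
  · rw [h]
    exact exists_X hLuz e hsing

end Pool.Agent.Results.MP_54b694_lc.SingularLuzin
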